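import Pool.Agent.helper62.VQ.SpecE

/-!
# MP_07c750, project VQ, row NUA: lower bound for images
-/

set_option autoImplicit false

open scoped MatrixGroups ContDiff Topology UpperHalfPlane NNReal ENNReal
open UpperHalfPlane MeasureTheory Filter Set

namespace Pool.Agent.VQE

open Pool.Agent.RS

noncomputable section

/-- the entries of a compact set are bounded -/
theorem NUA_bdd {K : Set SL(2, ℝ)} (hK : IsCompact K) :
    ∃ B : ℝ, 0 < B ∧ ∀ g ∈ K, ∀ i j, |g.1 i j| ≤ B := by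
  have h1 : ∀ i j : Fin 2, ∃ B : ℝ, ∀ g ∈ K, |g.1 i j| ≤ B := by
    intro i j
    have hc : ContinuousOn (fun g : SL(2, ℝ) => g.1 i j) K := by
      apply Continuous.continuousOn
      exact (continuous_apply_apply i j).comp continuous_subtype_val
    obtain ⟨B, hB⟩ := hK.exists_bound_of_continuousOn hc
    exact ⟨B, fun g hg => by simpa using hB g hg⟩
  choose B hB using h1
  refine ⟨1 + ∑ i, ∑ j, |B i j|, by positivity, fun g hg i j => ?_⟩
  have h2 := hB i j g hg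
  have h3 : |B i j| ≤ ∑ j', |B i j'| :=
    Finset.single_le_sum (f := fun j' => |B i j'|) (fun _ _ => abs_nonneg _) (Finset.mem_univ j)
  have h4 : ∑ j', |B i j'| ≤ ∑ i', ∑ j', |B i' j'| :=
    Finset.single_le_sum (f := fun i' => ∑ j', |B i' j'|) (fun _ _ => by positivity)
      (Finset.mem_univ i)
  have h5 := le_abs_self (B i j)
  linarith

theorem NUA_proof (h1 : NMB_stmt) (h2 : HAG_stmt) : NUA_stmt := by
  intro K κ hK hκ
  obtain ⟨B, hB0, hB⟩ := NUA_bdd hK
  obtain ⟨C, hC⟩ := h2 K hK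
  have hnm := h1.2.2.2.2.2.2.2.2
  set L : ℝ≥0 := ⟨2 * B / κ, by positivity⟩ with hL
  refine ⟨L ^ (3 : ℕ) * C, fun Θ Z A hA hAK hZA hZ => ?_⟩
  set f : Z → (Fin 2 → Fin 2 → ℝ) := fun z => mt (Θ z.1) with hf
  have hanti : AntilipschitzWith L f := by
    apply AntilipschitzWith.of_le_mul_dist
    intro z z'
    have e1 := hZ z.1 z.2 z'.1 z'.2
    have e2 := (hnm (Θ z.1) (Θ z'.1) B (hB _ (hAK (hZA _ z.2))) (hB _ (hAK (hZA _ z'.2)))).2
    have e3 : κ * dist z.1 z'.1 ≤ 2 * B * dist (mt (Θ z.1)) (mt (Θ z'.1)) := e1.trans e2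
    have e4 : dist z z' = dist z.1 z'.1 := rfl
    have e5 : ((L : ℝ≥0) : ℝ) = 2 * B / κ := rfl
    rw [e4, e5, div_mul_eq_mul_div, le_div_iff₀ hκ]
    linarith
  have e1 : volume Z = Measure.hausdorffMeasure (3 : ℝ) Z := by
    rw [← hausdorffMeasure_pi_real]
    norm_num
  have e2 : Measure.hausdorffMeasure (3 : ℝ) (univ : Set Z) = Measure.hausdorffMeasure (3 : ℝ) Z := by
    have e3 := (isometry_subtype_coe (s := Z)).hausdorffMeasure_image (d := 3)
      (Or.inl (by norm_num)) (univ : Set Z)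
    rw [image_univ, Subtype.range_coe] at e3
    exact e3.symm
  have e4 := hanti.le_hausdorffMeasure_image (d := 3) (by norm_num) (univ : Set Z)
  have e5 : f '' univ ⊆ mt '' A := by
    rintro _ ⟨z, -, rfl⟩
    exact ⟨Θ z.1, hZA _ z.2, rfl⟩
  have e6 := hC A hA hAK
  rw [e1, ← e2]
  refine e4.trans ?_
  have e7 : ((L : ℝ≥0∞) ^ (3 : ℝ)) = ((L ^ (3 : ℕ) : ℝ≥0) : ℝ≥0∞) := by
    rw [ENNReal.coe_pow]
    exact_mod_cast ENNReal.rpow_natCast (L : ℝ≥0∞) 3
  rw [e7, ENNReal.coe_mul, mul_assoc]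
  gcongr
  exact (measure_mono e5).trans e6

end

end Pool.Agent.VQE
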