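import Pool.Agent.helper62.VQ.SpecE

/-!
# MP_07c750, project VQ, row SLP: the stable leaf is Lipschitz
-/

set_option autoImplicit false

open scoped MatrixGroups ContDiff Topology UpperHalfPlane
open UpperHalfPlane MeasureTheory Filter Set

namespace Pool.Agent.VQE

open Pool.Agent.RS

noncomputable section

/-- a bounded exponential bracket is nonpositive -/
theorem SLP_bracket (B : ℝ) (h : ∀ T : ℝ, 0 ≤ T → Real.exp T * B ≤ 1) : B ≤ 0 := by
  by_contra hB
  rw [not_le] at hB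
  have h1 := h (1 / B) (by positivity)
  have h2 := Real.add_one_le_exp (1 / B)
  have h3 : (1 / B + 1) * B ≤ 1 := (mul_le_mul_of_nonneg_right h2 hB.le).trans h1
  have h4 : (1 / B + 1) * B = 1 + B := by field_simp
  linarith

theorem SLP_bds {p q : SL(2, ℝ) → ℝ} {f : ℝ → SL(2, ℝ) → SL(2, ℝ)} {g : SL(2, ℝ)} {x y : ℝ → ℝ}
    (h : SM p q f g x y) (t : ℝ) (ht : 0 ≤ t) :
    |x t| ≤ 1 / 8 ∧ |y t| ≤ 1 / 32 ∧ |x t| + |y t| ≤ 5 / 4 * (|x 0| * Real.exp (-(9 / 10 * t))) := by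
  have h1 := h.dec t ht
  have h2 := h.cone t ht
  have h3 : Real.exp (-(9 / 10 * t)) ≤ 1 := by
    rw [Real.exp_le_one_iff]
    linarith
  have h4 : |x 0| * Real.exp (-(9 / 10 * t)) ≤ |x 0| * 1 :=
    mul_le_mul_of_nonneg_left h3 (abs_nonneg _)
  have h5 := h.sml
  refine ⟨by linarith, by linarith, by linarith⟩

theorem SLP_proof (_h1 : NMB_stmt) (h2 : UVX_stmt) (h3 : UVG_stmt) (h4 : GRO_stmt)
    (h5 : LYA_stmt) : SLP_stmt := by
  intro δ p q f hδ0 hδ hF hf g E x y x' y' hS hS'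
  have hδ1 : δ ≤ 1 / 100 := by linarith
  have hN0 : 0 ≤ nm E := _h1.1 E
  have hgro := h4 δ p q f hδ0 hδ1 hF hf g E
  have huvx := (h2 δ p q hδ0 hδ1 hF).2.2
  have huvg := h3 δ p q hδ0 hδ1 hF
  set F0 : ℝ := 250 * δ * |x 0| * nm E with hF0
  set lam : ℝ := 1 / 10 + 20 * δ with hlam
  have hF00 : 0 ≤ F0 := by positivity
  -- the two estimates
  have hexp : ∀ t : ℝ, 0 ≤ t → 100 * δ * min 1 (nm ((f t g)⁻¹ * f t (g * E))) * (|x t| + |y t|) ≤
      F0 * Real.exp (lam * t) := by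
    intro t ht
    have e1 := hgro t
    rw [abs_of_nonneg ht] at e1
    have e2 := (SLP_bds hS t ht).2.2
    have e3 : 0 ≤ |x t| + |y t| := by positivity
    have e4 : (0 : ℝ) ≤ min 1 (nm ((f t g)⁻¹ * f t (g * E))) := le_min zero_le_one (_h1.1 _)
    calc 100 * δ * min 1 (nm ((f t g)⁻¹ * f t (g * E))) * (|x t| + |y t|)
        ≤ 100 * δ * (2 * nm E * Real.exp ((1 + 20 * δ) * t)) *
          (5 / 4 * (|x 0| * Real.exp (-(9 / 10 * t)))) := by
          refine mul_le_mul (mul_le_mul_of_nonneg_left e1 (by positivity)) e2 e3 (by positivity)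
      _ = F0 * (Real.exp ((1 + 20 * δ) * t) * Real.exp (-(9 / 10 * t))) := by rw [hF0]; ring
      _ = F0 * Real.exp (lam * t) := by
          rw [← Real.exp_add, hlam]
          congr 2
          ring
  have hdiff : ∀ (w : (SL(2, ℝ) → ℝ) → (SL(2, ℝ) → ℝ) → SL(2, ℝ) → ℝ → ℝ → ℝ),
      (∀ b c b' c' : ℝ, |b| ≤ 1 / 8 → |c| ≤ 1 / 8 → |b'| ≤ 1 / 8 → |c'| ≤ 1 / 8 →
        ∀ g, |w p q g b c - w p q g b' c'| ≤ 50 * δ * (|b - b'| + |c - c'|)) →
      (∀ (b c : ℝ) (g E : SL(2, ℝ)), |b| ≤ 1 / 8 → |c| ≤ 1 / 8 →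
        |w p q (g * E) b c - w p q g b c| ≤ 100 * δ * min 1 (nm E) * (|b| + |c|)) →
      ∀ t : ℝ, 0 ≤ t → |w p q (f t g) (x t) (y t) - w p q (f t (g * E)) (x' t) (y' t)| ≤
        50 * δ * (|x t - x' t| + |y t - y' t|) + F0 * Real.exp (lam * t) := by
    intro w hw1 hw2 t ht
    obtain ⟨a1, a2, -⟩ := SLP_bds hS t ht
    obtain ⟨b1, b2, -⟩ := SLP_bds hS' t ht
    have e1 := hw1 (x t) (y t) (x' t) (y' t) a1 (by linarith) b1 (by linarith) (f t (g * E))
    have e2 := hw2 (x t) (y t) (f t g) ((f t g)⁻¹ * f t (g * E)) a1 (by linarith)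
    rw [mul_inv_cancel_left] at e2
    have e3 := hexp t ht
    have e4 : w p q (f t g) (x t) (y t) - w p q (f t (g * E)) (x' t) (y' t) =
        (w p q (f t (g * E)) (x t) (y t) - w p q (f t (g * E)) (x' t) (y' t)) -
          (w p q (f t (g * E)) (x t) (y t) - w p q (f t g) (x t) (y t)) := by ring
    rw [e4]
    refine (abs_sub _ _).trans ?_
    linarith
  have hder : ∀ t : ℝ, 0 ≤ t →
      HasDerivAt (fun t => x t - x' t) ((-(x t) - hu p q (f t g) (x t) (y t)) -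
        (-(x' t) - hu p q (f t (g * E)) (x' t) (y' t))) t ∧
      HasDerivAt (fun t => y t - y' t) ((y t + hv p q (f t g) (x t) (y t)) -
        (y' t + hv p q (f t (g * E)) (x' t) (y' t))) t := by
    intro t ht
    exact ⟨(hS.dx t ht).sub (hS'.dx t ht), (hS.dy t ht).sub (hS'.dy t ht)⟩
  have hmain : ∀ T : ℝ, 0 ≤ T → Real.exp T * ((y 0 - y' 0) ^ 2 - (x 0 - x' 0) ^ 2 / 16 -
      8 * F0 ^ 2) ≤ 1 := by
    intro T hT
    have hL := h5 (50 * δ) F0 lam T (fun t => x t - x' t) (fun t => y t - y' t)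
      (fun t => (-(x t) - hu p q (f t g) (x t) (y t)) -
        (-(x' t) - hu p q (f t (g * E)) (x' t) (y' t)))
      (fun t => (y t + hv p q (f t g) (x t) (y t)) -
        (y' t + hv p q (f t (g * E)) (x' t) (y' t)))
      (by positivity) (by linarith) hF00 (by rw [hlam]; positivity) (by rw [hlam]; linarith) hT (by
        intro t ht
        refine ⟨(hder t ht.1).1, (hder t ht.1).2, ?_, ?_⟩
        · have e1 := hdiff hu (fun b c b' c' h1 h2 h3 h4 => (huvx b c b' c' h1 h2 h3 h4).1)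
            (fun b c g E h1 h2 => (huvg b c g E h1 h2).1) t ht.1
          have e2 : (-(x t) - hu p q (f t g) (x t) (y t)) -
              (-(x' t) - hu p q (f t (g * E)) (x' t) (y' t)) + (x t - x' t) =
              -(hu p q (f t g) (x t) (y t) - hu p q (f t (g * E)) (x' t) (y' t)) := by ring
          show |(-(x t) - hu p q (f t g) (x t) (y t)) -
              (-(x' t) - hu p q (f t (g * E)) (x' t) (y' t)) + (x t - x' t)| ≤ _
          rw [e2, abs_neg]
          exact e1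
        · have e1 := hdiff hv (fun b c b' c' h1 h2 h3 h4 => (huvx b c b' c' h1 h2 h3 h4).2.1)
            (fun b c g E h1 h2 => (huvg b c g E h1 h2).2) t ht.1
          have e2 : (y t + hv p q (f t g) (x t) (y t)) -
              (y' t + hv p q (f t (g * E)) (x' t) (y' t)) - (y t - y' t) =
              hv p q (f t g) (x t) (y t) - hv p q (f t (g * E)) (x' t) (y' t) := by ring
          show |(y t + hv p q (f t g) (x t) (y t)) -
              (y' t + hv p q (f t (g * E)) (x' t) (y' t)) - (y t - y' t)| ≤ _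
          rw [e2]
          exact e1)
    refine hL.trans ?_
    show (y T - y' T) ^ 2 - (x T - x' T) ^ 2 / 16 - 8 * (F0 * Real.exp (lam * T)) ^ 2 ≤ 1
    obtain ⟨-, a2, -⟩ := SLP_bds hS T hT
    obtain ⟨-, b2, -⟩ := SLP_bds hS' T hT
    have e1 : |y T - y' T| ≤ 1 := (abs_sub _ _).trans (by linarith)
    have e2 : (y T - y' T) ^ 2 ≤ 1 := by
      rw [← sq_abs]
      have e3 := abs_nonneg (y T - y' T)
      nlinarith
    have e4 : 0 ≤ (x T - x' T) ^ 2 / 16 := by positivity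
    have e5 : 0 ≤ 8 * (F0 * Real.exp (lam * T)) ^ 2 := by positivity
    linarith
  have hB := SLP_bracket _ hmain
  have hsq : (|y 0 - y' 0|) ^ 2 ≤ (|x 0 - x' 0| / 4 + 3 * F0) ^ 2 := by
    rw [sq_abs]
    have e1 : (|x 0 - x' 0|) ^ 2 = (x 0 - x' 0) ^ 2 := sq_abs _
    have e2 : 0 ≤ |x 0 - x' 0| * F0 := mul_nonneg (abs_nonneg _) hF00
    have e3 : 0 ≤ F0 ^ 2 := sq_nonneg _
    nlinarith
  have hfin := le_of_pow_le_pow_left₀ (two_ne_zero) (by positivity) hsq
  refine hfin.trans (le_of_eq ?_)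
  rw [hF0]
  ring

end

end Pool.Agent.VQE
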